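import Mathlib
import Pool.Agent.helper529_deck.Count

set_option autoImplicit false

/-!
# The deck determines the chromatic polynomial of a chordal graph

For a graph with a perfect elimination ordering in which the `i`-th vertex has `d_i` earlier
neighbours, the number of proper colourings is `∏ (k - d_i)`, and `k (k - 1) ρ_{G,v}(k)` is a product
of `n + 1` factors `k - j`.  Over the whole deck the factor `k - j` occurs
`(n - j) a_j + j a_{j - 1}` times, where `a_j` is the number of the `i` with `d_i = j`; so the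
deck determines `a_0`, `a_1`, and so on.
-/

namespace Pool.Agent.Results.MP_d3f2bc_co.ChordalDecks

open Pool.Agent.H367R3 Pool.Agent.helper529_deck

/-- `G` is chordal, in the form: there is a perfect elimination ordering (an ordering of the
vertices in which the earlier neighbours of every vertex are pairwise adjacent) -/
def Chordal {V : Type} [Fintype V] (G : SimpleGraph V) : Prop :=
  ∃ e : V ≃ Fin (Fintype.card V), ∀ x y z, e y < e x → e z < e x → y ≠ z →
    G.Adj x y → G.Adj x z → G.Adj y z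

/-- the number of proper colourings of `G` with `k` colours -/
noncomputable def chrom {V : Type} (G : SimpleGraph V) (k : ℕ) : ℕ :=
  Nat.card {c : V → Fin k // ∀ x y, G.Adj x y → c x ≠ c y}

/-- `ρ_{G,v}(k)`: the number of proper colourings of `G - v` with the colours `0, …, k - 1` such that
no neighbour of `v` has the colour `0` or `1` -/
noncomputable def rho {V : Type} (G : SimpleGraph V) (v : V) (k : ℕ) : ℕ :=
  Nat.card {c : {w : V // w ≠ v} → Fin k // (∀ x y, G.Adj x.1 y.1 → c x ≠ c y) ∧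
    ∀ x, G.Adj v x.1 → ((c x : Fin k) : ℕ) ≠ 0 ∧ ((c x : Fin k) : ℕ) ≠ 1}

/-- the number of ordered pairs of proper colourings of `G` which differ exactly at `v` -/
noncomputable def pairsAt {V : Type} (G : SimpleGraph V) (v : V) (k : ℕ) : ℕ :=
  Nat.card {p : (V → Fin k) × (V → Fin k) // (∀ x y, G.Adj x y → p.1 x ≠ p.1 y) ∧
    (∀ x y, G.Adj x y → p.2 x ≠ p.2 y) ∧ p.1 v ≠ p.2 v ∧ ∀ w, w ≠ v → p.1 w = p.2 w}

section transport

variable {V : Type} (G : SimpleGraph V) {n : ℕ} (e : V ≃ Fin n)

open Classical in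
/-- the back-adjacency -/
noncomputable def RR (i j : ℕ) : Bool :=
  decide (∃ (hi : i < n) (hj : j < n), G.Adj (e.symm ⟨i, hi⟩) (e.symm ⟨j, hj⟩))

theorem RR_iff (i j : Fin n) : RR G e i j = true ↔ G.Adj (e.symm i) (e.symm j) := by
  classical
  unfold RR
  simp only [decide_eq_true_eq]
  constructor
  · rintro ⟨_, _, h⟩
    exact h
  · intro h
    exact ⟨i.2, j.2, h⟩

theorem proper_iff {k : ℕ} (f : Fin n → Fin k) :
    ColGraph.Proper (RR G e) k n f ↔ ∀ x y, G.Adj x y → f (e x) ≠ f (e y) := by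
  constructor
  · intro h x y hxy
    have hne : e x ≠ e y := fun h' => G.ne_of_adj hxy (e.injective h')
    rcases lt_or_gt_of_ne hne with hlt | hlt
    · exact (h (e y) (e x) hlt ((RR_iff G e _ _).2 (by simpa using hxy.symm))).symm
    · exact h (e x) (e y) hlt ((RR_iff G e _ _).2 (by simpa using hxy))
  · intro h i j _ hR
    have := h _ _ ((RR_iff G e i j).1 hR)
    simpa using this

theorem peo (he : ∀ x y z, e y < e x → e z < e x → y ≠ z → G.Adj x y → G.Adj x z → G.Adj y z) :
    ∀ i < n, ColGraph.PEO (RR G e) i := by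
  intro i hi j hj l hl h1 h2
  have hjn : j < n := by omega
  have hln : l < n := by omega
  have k1 := (RR_iff G e ⟨i, hi⟩ ⟨j, hjn⟩).1 h1
  have k2 := (RR_iff G e ⟨i, hi⟩ ⟨l, hln⟩).1 h2
  refine (RR_iff G e ⟨j, hjn⟩ ⟨l, hln⟩).2 ?_
  apply he (e.symm ⟨i, hi⟩) _ _ _ _ _ k1 k2
  · simpa using hj
  · simp only [Equiv.apply_symm_apply, Fin.mk_lt_mk]
    omega
  · intro h
    have := e.symm.injective h
    simp only [Fin.mk.injEq] at this
    omega

theorem chrom_eq (k : ℕ) : chrom G k = (ColGraph.PC (RR G e) k n).card := by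
  unfold chrom
  have h : Nat.card {c : V → Fin k // ∀ x y, G.Adj x y → c x ≠ c y} =
      Nat.card {f // f ∈ ColGraph.PC (RR G e) k n} := by
    apply Nat.card_congr
    refine Equiv.subtypeEquiv (Equiv.arrowCongr e (Equiv.refl _)) ?_
    intro c
    simp only [ColGraph.PC, Finset.mem_filter, Finset.mem_univ, true_and, proper_iff]
    simp [Equiv.arrowCongr]
  rw [h]
  simp

theorem pairsAt_eq (v : V) (k : ℕ) : pairsAt G v k = (ColGraph.DD (RR G e) k n (e v)).card := by
  unfold pairsAt
  have h : Nat.card {p : (V → Fin k) × (V → Fin k) // (∀ x y, G.Adj x y → p.1 x ≠ p.1 y) ∧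
      (∀ x y, G.Adj x y → p.2 x ≠ p.2 y) ∧ p.1 v ≠ p.2 v ∧ ∀ w, w ≠ v → p.1 w = p.2 w} =
      Nat.card {f // f ∈ ColGraph.DD (RR G e) k n (e v)} := by
    apply Nat.card_congr
    refine Equiv.subtypeEquiv (Equiv.prodCongr (Equiv.arrowCongr e (Equiv.refl _))
      (Equiv.arrowCongr e (Equiv.refl _))) ?_
    intro c
    simp only [ColGraph.DD, Finset.mem_filter, Finset.mem_univ, true_and, proper_iff]
    simp only [Equiv.prodCongr_apply, Prod.map, Equiv.arrowCongr_apply, Equiv.coe_refl,
      Function.comp_apply, id_eq, Equiv.symm_apply_apply]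
    refine and_congr_right fun _ => and_congr_right fun _ => and_congr_right fun _ => ?_
    constructor
    · intro h w hw
      apply h
      intro h'
      apply hw
      rw [← h']
      simp
    · intro h w hw
      have := h (e w) (fun h' => hw (e.injective h'))
      simpa using this
  rw [h]
  simp

end transport

theorem exists_perm {k : ℕ} (q : {q : Fin k × Fin k // q.1 ≠ q.2}) :
    ∃ σ : Equiv.Perm (Fin k), ((σ q.1.1 : Fin k) : ℕ) = 0 ∧ ((σ q.1.2 : Fin k) : ℕ) = 1 := by
  obtain ⟨⟨a, b⟩, hab⟩ := q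
  have hab' : a ≠ b := hab
  have hk : 2 ≤ k := by
    have h1 := a.2
    have h2 := b.2
    have h3 : (a : ℕ) ≠ b := fun h => hab' (Fin.ext h)
    omega
  let x0 : Fin k := ⟨0, by omega⟩
  let x1 : Fin k := ⟨1, by omega⟩
  have hx : x0 ≠ x1 := by
    intro h
    have := congrArg Fin.val h
    simp [x0, x1] at this
  refine ⟨(Equiv.swap a x0).trans (Equiv.swap (Equiv.swap a x0 b) x1), ?_, ?_⟩
  · have hb : Equiv.swap a x0 b ≠ x0 := by
      intro h
      apply hab'
      have h2 : Equiv.swap a x0 b = Equiv.swap a x0 a := by rw [h, Equiv.swap_apply_left]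
      exact ((Equiv.swap a x0).injective h2).symm
    have : (Equiv.swap a x0).trans (Equiv.swap (Equiv.swap a x0 b) x1) a = x0 := by
      rw [Equiv.trans_apply, Equiv.swap_apply_left, Equiv.swap_apply_of_ne_of_ne hb.symm hx]
    show (((Equiv.swap a x0).trans (Equiv.swap (Equiv.swap a x0 b) x1) a : Fin k) : ℕ) = 0
    rw [this]
  · have : (Equiv.swap a x0).trans (Equiv.swap (Equiv.swap a x0 b) x1) b = x1 := by
      rw [Equiv.trans_apply, Equiv.swap_apply_left]
    show (((Equiv.swap a x0).trans (Equiv.swap (Equiv.swap a x0 b) x1) b : Fin k) : ℕ) = 1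
    rw [this]

theorem card_q (k : ℕ) : Nat.card {q : Fin k × Fin k // q.1 ≠ q.2} = k * (k - 1) := by
  have h : Nat.card {q : Fin k × Fin k // q.1 ≠ q.2} =
      ((Finset.univ : Finset (Fin k)).offDiag).card := by
    rw [Nat.card_eq_fintype_card, Fintype.card_subtype]
    congr 1
    ext q
    simp
  rw [h, Finset.offDiag_card, Finset.card_univ, Fintype.card_fin, Nat.mul_sub, mul_one]

/-- `k (k - 1) ρ_{G,v}(k)` is the number of pairs of colourings which differ exactly at `v` -/
theorem pairsAt_rho {V : Type} [Fintype V] (G : SimpleGraph V) (v : V) (k : ℕ) :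
    pairsAt G v k = k * (k - 1) * rho G v k := by
  classical
  choose σ h0 h1 using (exists_perm (k := k))
  have e0 : ∀ q x, ((σ q x : Fin k) : ℕ) = 0 ↔ x = q.1.1 := by
    intro q x
    rw [← h0 q]
    exact ⟨fun h => (σ q).injective (Fin.ext h), fun h => by rw [h]⟩
  have e1 : ∀ q x, ((σ q x : Fin k) : ℕ) = 1 ↔ x = q.1.2 := by
    intro q x
    rw [← h1 q]
    exact ⟨fun h => (σ q).injective (Fin.ext h), fun h => by rw [h]⟩
  rw [← card_q]
  unfold pairsAt rho
  rw [← Nat.card_prod]
  apply Nat.card_congr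
  refine Equiv.ofBijective (fun p => (⟨(p.1.1 v, p.1.2 v), p.2.2.2.1⟩,
    ⟨fun w => σ ⟨(p.1.1 v, p.1.2 v), p.2.2.2.1⟩ (p.1.1 w.1), ?_, ?_⟩)) ⟨?_, ?_⟩
  · intro x y hxy h
    exact p.2.1 _ _ hxy ((σ _).injective h)
  · intro x hx
    constructor
    · intro h
      exact p.2.1 _ _ hx ((e0 _ _).1 h).symm
    · intro h
      have h2 := (e1 _ _).1 h
      have h3 := p.2.2.2.2 x.1 x.2
      exact p.2.2.1 _ _ hx (by rw [← h3]; exact h2.symm)
  · intro p p' hpp
    have hq : (p.1.1 v, p.1.2 v) = (p'.1.1 v, p'.1.2 v) :=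
      congrArg (fun t => t.1.1) hpp
    have hc : ∀ w : {w : V // w ≠ v}, σ ⟨(p.1.1 v, p.1.2 v), p.2.2.2.1⟩ (p.1.1 w.1) =
        σ ⟨(p'.1.1 v, p'.1.2 v), p'.2.2.2.1⟩ (p'.1.1 w.1) := fun w =>
      congrFun (congrArg (fun t => t.2.1) hpp) w
    have hσ : (⟨(p.1.1 v, p.1.2 v), p.2.2.2.1⟩ : {q : Fin k × Fin k // q.1 ≠ q.2}) =
        ⟨(p'.1.1 v, p'.1.2 v), p'.2.2.2.1⟩ := Subtype.ext hq
    have hw : ∀ w, w ≠ v → p.1.1 w = p'.1.1 w := by
      intro w hwv
      have := hc ⟨w, hwv⟩
      rw [hσ] at this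
      exact (σ _).injective this
    apply Subtype.ext
    apply Prod.ext
    · funext w
      by_cases hwv : w = v
      · rw [hwv]
        exact congrArg Prod.fst hq
      · exact hw w hwv
    · funext w
      by_cases hwv : w = v
      · rw [hwv]
        exact congrArg Prod.snd hq
      · rw [← p.2.2.2.2 w hwv, ← p'.2.2.2.2 w hwv]
        exact hw w hwv
  · rintro ⟨⟨⟨a, b⟩, hab⟩, ⟨c, hc1, hc2⟩⟩
    set q : {q : Fin k × Fin k // q.1 ≠ q.2} := ⟨(a, b), hab⟩ with hq
    let ext (t : Fin k) : V → Fin k := fun w => if h : w = v then t else (σ q).symm (c ⟨w, h⟩)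
    have hv : ∀ t, ext t v = t := fun t => by simp [ext]
    have hw : ∀ t w (h : w ≠ v), ext t w = (σ q).symm (c ⟨w, h⟩) := fun t w h => by
      simp [ext, h]
    have hprop : ∀ t, (∀ x : {w : V // w ≠ v}, G.Adj v x.1 → (σ q).symm (c x) ≠ t) →
        ∀ x y, G.Adj x y → ext t x ≠ ext t y := by
      intro t ht x y hxy
      by_cases hx : x = v
      · subst hx
        have hy : y ≠ x := (G.ne_of_adj hxy).symm
        rw [hv, hw _ _ hy]
        exact (ht ⟨y, hy⟩ hxy).symm
      · by_cases hy : y = v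
        · subst hy
          rw [hv, hw _ _ hx]
          exact ht ⟨x, hx⟩ hxy.symm
        · rw [hw _ _ hx, hw _ _ hy]
          intro h
          exact hc1 ⟨x, hx⟩ ⟨y, hy⟩ hxy ((σ q).symm.injective h)
    have hta : ∀ x : {w : V // w ≠ v}, G.Adj v x.1 → (σ q).symm (c x) ≠ a := by
      intro x hx h
      apply (hc2 x hx).1
      have : c x = σ q a := by rw [← h, Equiv.apply_symm_apply]
      rw [this]
      exact (e0 q a).2 rfl
    have htb : ∀ x : {w : V // w ≠ v}, G.Adj v x.1 → (σ q).symm (c x) ≠ b := by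
      intro x hx h
      apply (hc2 x hx).2
      have : c x = σ q b := by rw [← h, Equiv.apply_symm_apply]
      rw [this]
      exact (e1 q b).2 rfl
    refine ⟨⟨(ext a, ext b), hprop a hta, hprop b htb, ?_, ?_⟩, ?_⟩
    · show ext a v ≠ ext b v
      rw [hv, hv]
      exact hab
    · intro w hwv
      show ext a w = ext b w
      rw [hw _ _ hwv, hw _ _ hwv]
    · have hqq : (⟨(ext a v, ext b v), by rw [hv, hv]; exact hab⟩ :
          {q : Fin k × Fin k // q.1 ≠ q.2}) = q := by
        apply Subtype.ext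
        show (ext a v, ext b v) = (a, b)
        rw [hv, hv]
      apply Prod.ext
      · exact hqq
      · apply Subtype.ext
        funext w
        show σ ⟨(ext a v, ext b v), _⟩ (ext a w.1) = c w
        rw [hqq, hw _ _ w.2]
        simp

/-- Let `G` and `H` be chordal graphs with the same deck `{ρ_{G,v}} = {ρ_{H,w}}` (as multisets of
functions of `k ≥ 2`). Then `G` and `H` have the same chromatic polynomial. -/
theorem result {V W : Type} [Fintype V] [Fintype W] (G : SimpleGraph V) (H : SimpleGraph W)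
    (hG : Chordal G) (hH : Chordal H) (σ : V ≃ W)
    (hdeck : ∀ v : V, ∀ k : ℕ, 2 ≤ k → rho G v k = rho H (σ v) k) :
    ∀ k : ℕ, chrom G k = chrom H k := by
  obtain ⟨e, he⟩ := hG
  obtain ⟨f, hf⟩ := hH
  have hcard : Fintype.card V = Fintype.card W := Fintype.card_congr σ
  intro k
  rw [chrom_eq G e, chrom_eq H (f.trans (finCongr hcard.symm))]
  apply main _ _ _ (peo G e he) (peo H _ ?_)
    ((e.symm.trans σ).trans (f.trans (finCongr hcard.symm)))
  · intro k u
    have h1 := pairsAt_eq G e (e.symm u) k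
    have h2 := pairsAt_eq H (f.trans (finCongr hcard.symm)) (σ (e.symm u)) k
    rw [Equiv.apply_symm_apply] at h1
    have h3 : ((e.symm.trans σ).trans (f.trans (finCongr hcard.symm))) u =
        (f.trans (finCongr hcard.symm)) (σ (e.symm u)) := rfl
    rw [h3, ← h1, ← h2, pairsAt_rho, pairsAt_rho]
    rcases Nat.lt_or_ge k 2 with hk | hk
    · have : k * (k - 1) = 0 := by
        have : k = 0 ∨ k = 1 := by omega
        rcases this with h | h <;> simp [h]
      rw [this]
      simp
    · rw [hdeck _ k hk]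
  · intro x y z h1 h2 h3 h4 h5
    exact hf x y z (by simpa using h1) (by simpa using h2) h3 h4 h5

end Pool.Agent.Results.MP_d3f2bc_co.ChordalDecks
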